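import Pool.Agent.Lib.MP_06671c_ag.Defs

/-!
# MP_06671c_ag: Chern and Segre classes, intersection numbers
-/

open PowerSeries

namespace Pool.Agent.MP_06671c

private theorem coeff_lhs {A : Type} [CommRing A] (p : PowerSeries A) (a b : A) (n : ℕ) :
    coeff n (p * (1 + C a * X ^ 2 + C b * X ^ 3)) =
      coeff n p + (if 2 ≤ n then coeff (n - 2) p * a else 0) +
        (if 3 ≤ n then coeff (n - 3) p * b else 0) := by
  have h : p * (1 + C a * X ^ 2 + C b * X ^ 3) = p + (p * C a) * X ^ 2 + (p * C b) * X ^ 3 := by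
    ring
  rw [h, map_add, map_add, coeff_mul_X_pow', coeff_mul_X_pow', coeff_mul_C, coeff_mul_C]

private theorem pow_seven {A : Type} [CommRing A] (H : A) :
    (1 + C H * X : PowerSeries A) ^ 7 =
      C 1 + C (7 * H) * X ^ 1 + C (21 * H ^ 2) * X ^ 2 + C (35 * H ^ 3) * X ^ 3 +
        (C (35 * H ^ 4) + C (21 * H ^ 5) * X + C (7 * H ^ 6) * X ^ 2 + C (H ^ 7) * X ^ 3) * X ^ 4 := by
  simp only [map_mul, map_pow, map_ofNat, map_one]
  ring

private theorem coeff_rhs {A : Type} [CommRing A] (H : A) (n : ℕ) (hn : n ≤ 3) :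
    coeff n ((1 + C H * X : PowerSeries A) ^ 7) = (Nat.choose 7 n : A) * H ^ n := by
  rw [pow_seven]
  have h4 : ¬ 4 ≤ n := by omega
  simp only [map_add, coeff_mul_X_pow', coeff_C, if_neg h4]
  interval_cases n <;> norm_num [Nat.choose]

section Whitney

variable {A : Type} [CommRing A] {H c2 c3 : A} {p : PowerSeries A}
  (hp : p * (1 + C c2 * X ^ 2 + C c3 * X ^ 3) = (1 + C H * X) ^ 7)
include hp

theorem whitney_zero : constantCoeff p = 1 := by
  have h := congrArg (coeff 0) hp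
  rw [coeff_lhs, coeff_rhs _ _ (by norm_num)] at h
  simpa using h

theorem whitney_one : coeff 1 p = 7 * H := by
  have h := congrArg (coeff 1) hp
  rw [coeff_lhs, coeff_rhs _ _ (by norm_num)] at h
  simpa using h

theorem whitney_two : coeff 2 p = 21 * H ^ 2 - c2 := by
  have h := congrArg (coeff 2) hp
  rw [coeff_lhs, coeff_rhs _ _ (by norm_num)] at h
  norm_num [Nat.choose] at h
  rw [whitney_zero hp] at h
  linear_combination h

theorem whitney_three : coeff 3 p = 35 * H ^ 3 - 7 * (H * c2) - c3 := by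
  have h := congrArg (coeff 3) hp
  rw [coeff_lhs, coeff_rhs _ _ (by norm_num)] at h
  norm_num [Nat.choose] at h
  rw [whitney_zero hp, whitney_one hp] at h
  linear_combination h

end Whitney

variable {A : Type} [CommRing A] [Algebra ℚ A] (V : CY A)

theorem chern_zero : constantCoeff V.chern = 1 := whitney_zero V.whitney

theorem chern_one : coeff 1 V.chern = 7 * V.H := whitney_one V.whitney

theorem chern_two : coeff 2 V.chern = 21 * V.H ^ 2 - V.c2 := whitney_two V.whitney

theorem chern_three : coeff 3 V.chern = 35 * V.H ^ 3 - 7 * (V.H * V.c2) - V.c3 :=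
  whitney_three V.whitney

private theorem segre_coeff (n : ℕ) :
    ∑ i ∈ Finset.range (n + 1), coeff i V.segre * coeff (n - i) V.chern = if n = 0 then 1 else 0 := by
  have h := congrArg (coeff n) V.segre_mul
  rw [coeff_mul, Finset.Nat.sum_antidiagonal_eq_sum_range_succ_mk, coeff_one] at h
  exact h

theorem segre_zero : constantCoeff V.segre = 1 := by
  have h := segre_coeff V 0
  simp only [Finset.sum_range_succ, Finset.sum_range_zero] at h
  norm_num at h
  rw [chern_zero] at h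
  linear_combination h

theorem segre_one : coeff 1 V.segre = -7 * V.H := by
  have h := segre_coeff V 1
  simp only [Finset.sum_range_succ, Finset.sum_range_zero] at h
  norm_num at h
  rw [chern_zero, chern_one, segre_zero] at h
  linear_combination h

theorem segre_two : coeff 2 V.segre = 28 * V.H ^ 2 + V.c2 := by
  have h := segre_coeff V 2
  simp only [Finset.sum_range_succ, Finset.sum_range_zero] at h
  norm_num at h
  rw [chern_zero, chern_one, chern_two, segre_zero, segre_one] at h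
  linear_combination h

theorem segre_three : coeff 3 V.segre = -84 * V.H ^ 3 - 7 * (V.H * V.c2) + V.c3 := by
  have h := segre_coeff V 3
  simp only [Finset.sum_range_succ, Finset.sum_range_zero] at h
  norm_num at h
  rw [chern_zero, chern_one, chern_two, chern_three, segre_zero, segre_one, segre_two] at h
  linear_combination h

/-! ### numbers -/

private theorem deg_natMul (n : ℕ) (a : A) : V.deg ((n : A) * a) = n * V.deg a := by
  rw [← nsmul_eq_mul, map_nsmul, nsmul_eq_mul]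

theorem deg_c2 : V.deg (V.H * V.c2) = 84 - 2 * V.d := by
  have h := V.riemannRoch
  rw [V.hd] at h
  linear_combination 12 * h

theorem deg_c3 : V.deg V.c3 = 49 * V.d - (V.d : ℚ) ^ 2 - 588 := by
  have h := V.doublePoint
  have h1 := deg_natMul V 35 (V.H ^ 3)
  have h2 := deg_natMul V 7 (V.H * V.c2)
  push_cast at h1 h2
  rw [chern_three, map_sub, map_sub, h1, h2, V.hd, deg_c2] at h
  linear_combination -h

theorem d_le : V.d ≤ 41 := by
  have h1 := V.miyaoka
  have h2 := V.flat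
  rw [deg_c2] at h1
  have h3 : (V.d : ℚ) ≤ 42 := by linarith
  have h4 : V.d ≤ 42 := by exact_mod_cast h3
  rcases Nat.lt_or_ge V.d 42 with h5 | h5
  · omega
  · exfalso
    have h6 : V.d = 42 := by omega
    rw [deg_c2, deg_c3, h6] at h2
    norm_num at h2

theorem deg_twistedTop (k : ℕ) :
    V.deg (V.twistedTop k) = (k : ℚ) * (k ^ 2 - 7 * k + 23) * V.d - 84 * k - (V.d : ℚ) ^ 2 := by
  have e : V.twistedTop k = ((k ^ 3 : ℕ) : A) * V.H ^ 3 - ((7 * k ^ 2 : ℕ) : A) * V.H ^ 3 +
      ((21 * k : ℕ) : A) * V.H ^ 3 - (k : A) * (V.H * V.c2) - coeff 3 V.chern := by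
    unfold CY.twistedTop
    simp only [Finset.sum_range_succ, Finset.sum_range_zero]
    norm_num
    rw [chern_zero, chern_one, chern_two]
    ring
  rw [e, map_sub, map_sub, map_add, map_sub, deg_natMul, deg_natMul, deg_natMul, deg_natMul,
    V.doublePoint, V.hd, deg_c2]
  push_cast
  ring

variable {V} {B : Type} [CommRing B] [Algebra ℚ B] (W : BlowUp V B)

private theorem int_natMul (n : ℕ) (b : B) : W.int ((n : B) * b) = n * W.int b := by
  rw [← nsmul_eq_mul, map_nsmul, nsmul_eq_mul]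

theorem int1 : W.int (W.h ^ 5 * W.e) = 0 := by
  have h := W.low 1 (by norm_num) (by norm_num)
  norm_num at h
  exact h

theorem int2 : W.int (W.h ^ 4 * W.e ^ 2) = 0 := by
  have h := W.low 2 (by norm_num) (by norm_num)
  norm_num at h
  exact h

theorem int3 : W.int (W.h ^ 3 * W.e ^ 3) = V.d := by
  have h := W.high 3 (by norm_num) (by norm_num)
  norm_num at h
  rw [segre_zero, mul_one, V.hd] at h
  exact h

theorem int4 : W.int (W.h ^ 2 * W.e ^ 4) = 7 * V.d := by
  have h := W.high 4 (by norm_num) (by norm_num)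
  norm_num at h
  have h1 : V.H ^ 2 * coeff 1 V.segre = -((7 : ℕ) * V.H ^ 3) := by
    rw [segre_one]; push_cast; ring
  rw [h1, map_neg, deg_natMul, V.hd] at h
  rw [h]; push_cast; ring

theorem int5 : W.int (W.h * W.e ^ 5) = 26 * V.d + 84 := by
  have h := W.high 5 (by norm_num) (by norm_num)
  norm_num at h
  have h1 : V.H * coeff 2 V.segre = (28 : ℕ) * V.H ^ 3 + V.H * V.c2 := by
    rw [segre_two]; push_cast; ring
  rw [h1, map_add, deg_natMul, V.hd, deg_c2] at h
  rw [h]; push_cast; ring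

theorem int6 : W.int (W.e ^ 6) = (V.d : ℚ) ^ 2 + 21 * V.d + 1176 := by
  have h := W.high 6 (by norm_num) (by norm_num)
  norm_num at h
  have h1 : coeff 3 V.segre = V.c3 - (84 : ℕ) * V.H ^ 3 - (7 : ℕ) * (V.H * V.c2) := by
    rw [segre_three]; push_cast; ring
  rw [h1, map_sub, map_sub, deg_natMul, deg_natMul, V.hd, deg_c2, deg_c3] at h
  rw [h]; push_cast; ring

theorem top_self (k : ℕ) : W.int (((k : B) * W.h - W.e) ^ 6) =
    (k : ℚ) ^ 6 - 20 * k ^ 3 * V.d + 105 * k ^ 2 * V.d - 6 * k * (26 * V.d + 84) +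
      (V.d : ℚ) ^ 2 + 21 * V.d + 1176 := by
  have e : ((k : B) * W.h - W.e) ^ 6 = ((k ^ 6 : ℕ) : B) * W.h ^ 6 -
      ((6 * k ^ 5 : ℕ) : B) * (W.h ^ 5 * W.e) + ((15 * k ^ 4 : ℕ) : B) * (W.h ^ 4 * W.e ^ 2) -
      ((20 * k ^ 3 : ℕ) : B) * (W.h ^ 3 * W.e ^ 3) + ((15 * k ^ 2 : ℕ) : B) * (W.h ^ 2 * W.e ^ 4) -
      ((6 * k : ℕ) : B) * (W.h * W.e ^ 5) + W.e ^ 6 := by
    push_cast
    ring
  rw [e, map_add, map_sub, map_add, map_sub, map_add, map_sub, int_natMul, int_natMul, int_natMul,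
    int_natMul, int_natMul, int_natMul, W.top, int1, int2, int3, int4, int5, int6]
  push_cast
  ring

theorem third_self (k : ℕ) : W.int (((k : B) * W.h - W.e) ^ 3 * W.h ^ 3) = (k : ℚ) ^ 3 - V.d := by
  have e : ((k : B) * W.h - W.e) ^ 3 * W.h ^ 3 = ((k ^ 3 : ℕ) : B) * W.h ^ 6 -
      ((3 * k ^ 2 : ℕ) : B) * (W.h ^ 5 * W.e) + ((3 * k : ℕ) : B) * (W.h ^ 4 * W.e ^ 2) -
      W.h ^ 3 * W.e ^ 3 := by
    push_cast
    ring
  rw [e, map_sub, map_add, map_sub, int_natMul, int_natMul, int_natMul, W.top, int1, int2, int3]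
  push_cast
  ring

theorem fifth_self (k : ℕ) : W.int (((k : B) * W.h - W.e) ^ 5 * W.h) =
    (k : ℚ) ^ 5 - 10 * k ^ 2 * V.d + 35 * k * V.d - 26 * V.d - 84 := by
  have e : ((k : B) * W.h - W.e) ^ 5 * W.h = ((k ^ 5 : ℕ) : B) * W.h ^ 6 -
      ((5 * k ^ 4 : ℕ) : B) * (W.h ^ 5 * W.e) + ((10 * k ^ 3 : ℕ) : B) * (W.h ^ 4 * W.e ^ 2) -
      ((10 * k ^ 2 : ℕ) : B) * (W.h ^ 3 * W.e ^ 3) + ((5 * k : ℕ) : B) * (W.h ^ 2 * W.e ^ 4) -
      W.h * W.e ^ 5 := by
    push_cast
    ring
  rw [e, map_sub, map_add, map_sub, map_add, map_sub, int_natMul, int_natMul, int_natMul,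
    int_natMul, int_natMul, W.top, int1, int2, int3, int4, int5]
  push_cast
  ring

theorem mixed_top (k a : ℕ) :
    W.int (((k : B) * W.h - W.e) ^ 5 * ((a : B) * W.h - W.e)) =
      W.int (((k : B) * W.h - W.e) ^ 6) -
        ((k : ℚ) - a) * W.int (((k : B) * W.h - W.e) ^ 5 * W.h) := by
  have e : ((k : B) * W.h - W.e) ^ 5 * ((a : B) * W.h - W.e) = ((k : B) * W.h - W.e) ^ 6 -
      (k : B) * (((k : B) * W.h - W.e) ^ 5 * W.h) + (a : B) * (((k : B) * W.h - W.e) ^ 5 * W.h) := by
    ring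
  rw [e, map_add, map_sub, int_natMul, int_natMul]
  ring

end Pool.Agent.MP_06671c
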