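import Mathlib

/-!
# MP_06671c_ag: Calabi-Yau threefolds in projective 6-space, the data

Chern classes are coefficients of power series over the (even) cohomology ring of the threefold.
-/

open PowerSeries

namespace Pool.Agent.MP_06671c

/-- The numerical data of a Calabi-Yau threefold `X` of degree `d` in `ℙ⁶`: a commutative
`ℚ`-algebra `A` (the even rational cohomology of `X`) with a linear map `deg` (integration over
`X`), the hyperplane class `H`, the Chern classes `c2`, `c3` of `X` (`c1 = 0`), the total Chern
class of the normal bundle and its inverse, the total Segre class. -/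
structure CY (A : Type) [CommRing A] [Algebra ℚ A] where
  /-- integration over `X` -/
  deg : A →ₗ[ℚ] ℚ
  /-- the hyperplane class -/
  H : A
  /-- the second Chern class of `X` -/
  c2 : A
  /-- the third Chern class of `X` -/
  c3 : A
  /-- the degree of `X` -/
  d : ℕ
  /-- `H³ = d` -/
  hd : deg (H ^ 3) = d
  /-- the degree is positive -/
  hpos : 0 < d
  /-- the total Chern class of the normal bundle -/
  chern : PowerSeries A
  /-- the total Segre class of the normal bundle -/
  segre : PowerSeries A
  /-- `c(N) c(T_X) = c(T_ℙ⁶) = (1 + H)⁷` -/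
  whitney : chern * (1 + C c2 * X ^ 2 + C c3 * X ^ 3) = (1 + C H * X) ^ 7
  /-- `s(N) c(N) = 1` -/
  segre_mul : segre * chern = 1
  /-- Riemann-Roch for `O(1)`: `h⁰(O(1)) = H³/6 + H c2/12 = 7` -/
  riemannRoch : deg (H ^ 3) / 6 + deg (H * c2) / 12 = 7
  /-- the double point formula: `c3(N) = d²` -/
  doublePoint : deg (coeff 3 chern) = (d : ℚ) ^ 2
  /-- Miyaoka: `H c2 ≥ 0` -/
  miyaoka : 0 ≤ deg (H * c2)
  /-- if `H c2 = 0` then `X` is a quotient of an abelian threefold and the Euler number is `0` -/
  flat : deg (H * c2) = 0 → deg c3 = 0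

variable {A : Type} [CommRing A] [Algebra ℚ A]

/-- The third Chern class of `N^∨(k)`, `N` the normal bundle (of rank `3`). The equation of a
hypersurface of degree `k` which contains `X` is a section of `N^∨(k)`; its zeros are the singular
points of the hypersurface which lie on `X`. -/
noncomputable def CY.twistedTop (V : CY A) (k : ℕ) : A :=
  ∑ i ∈ Finset.range 4, (-1) ^ i * ((k : A) * V.H) ^ (3 - i) * coeff i V.chern

/-- The blow-up of `ℙ⁶` along `X`: a commutative `ℚ`-algebra `B` (its even cohomology) with
integration `int`, the class `h` of a hyperplane and the class `e` of the exceptional divisor;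
their intersection numbers are given by the Segre classes of the normal bundle. -/
structure BlowUp (V : CY A) (B : Type) [CommRing B] [Algebra ℚ B] where
  /-- integration over the blow-up -/
  int : B →ₗ[ℚ] ℚ
  /-- the pull-back of the hyperplane class -/
  h : B
  /-- the class of the exceptional divisor -/
  e : B
  /-- `h⁶ = 1` -/
  top : int (h ^ 6) = 1
  /-- `h⁵ e = h⁴ e² = 0` -/
  low : ∀ j : ℕ, 1 ≤ j → j ≤ 2 → int (h ^ (6 - j) * e ^ j) = 0
  /-- `h^(6-j) e^j = (-1)^(j-1) ∫ H^(6-j) s_(j-3)(N)` for `3 ≤ j ≤ 6` -/
  high : ∀ j : ℕ, 3 ≤ j → j ≤ 6 →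
    int (h ^ (6 - j) * e ^ j) = (-1) ^ (j - 1) * V.deg (V.H ^ (6 - j) * coeff (j - 3) V.segre)

variable {V : CY A} {B : Type} [CommRing B] [Algebra ℚ B]

/-- The nonnegativity of the intersection numbers `(k h - e)^i h^(6-i)`, `i ≤ 6`. It holds if
`k h - e` is nef, in particular if `X` is the scheme-theoretic intersection of hypersurfaces of
degree at most `k`. -/
def BlowUp.Nonneg (W : BlowUp V B) (k : ℕ) : Prop :=
  ∀ i : ℕ, i ≤ 6 → 0 ≤ W.int (((k : B) * W.h - W.e) ^ i * W.h ^ (6 - i))

/-- The nonnegativity of the intersection numbers `(k h - e)^i h^(5-i) (a h - e)`, `i ≤ 5`. It holds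
if `k h - e` is nef and some hypersurface of degree `a` contains `X` (then `a h - e` is the class of
an effective divisor). -/
def BlowUp.NonnegOn (W : BlowUp V B) (k a : ℕ) : Prop :=
  ∀ i : ℕ, i ≤ 5 → 0 ≤ W.int (((k : B) * W.h - W.e) ^ i * W.h ^ (5 - i) * ((a : B) * W.h - W.e))

end Pool.Agent.MP_06671c
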