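import Pool.Agent.Lib.MP_06671c_ag.Calc

/-!
# MP_06671c_ag: the data of known threefolds, and of their blow-ups

The complete intersections of type `(2, 2, 3)` (degree `12`, Euler number `-144`, `c2 = 5 H²`) and
the Pfaffian threefolds of degree `14` (Euler number `-98`, `c2 = 4 H²`) are cut out by cubics; the
cubics through the latter define a Cremona transformation, and indeed `(3 h - e)⁶ = 1`.
-/

open PowerSeries

namespace Pool.Agent.MP_06671c

/-- The total Chern class of the normal bundle exists and is determined by `H`, `c2`, `c3`. -/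
theorem exists_chern {A : Type} [CommRing A] (H c2 c3 : A) :
    ∃ p q : PowerSeries A, p * (1 + C c2 * X ^ 2 + C c3 * X ^ 3) = (1 + C H * X) ^ 7 ∧
      q * p = 1 := by
  have h1 : constantCoeff (1 + C c2 * X ^ 2 + C c3 * X ^ 3 : PowerSeries A) = ((1 : Aˣ) : A) := by
    simp
  have h2 : constantCoeff (1 + C H * X : PowerSeries A) = ((1 : Aˣ) : A) := by
    simp
  have e1 := mul_invOfUnit _ _ h1
  have e2 := mul_invOfUnit _ _ h2
  refine ⟨(1 + C H * X) ^ 7 * invOfUnit (1 + C c2 * X ^ 2 + C c3 * X ^ 3) 1,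
    invOfUnit (1 + C H * X) 1 ^ 7 * (1 + C c2 * X ^ 2 + C c3 * X ^ 3), ?_, ?_⟩
  · rw [mul_assoc, mul_comm (invOfUnit _ _), e1, mul_one]
  · calc _ = ((1 + C H * X) * invOfUnit (1 + C H * X) 1) ^ 7 *
          ((1 + C c2 * X ^ 2 + C c3 * X ^ 3) *
            invOfUnit (1 + C c2 * X ^ 2 + C c3 * X ^ 3) 1) := by ring
      _ = 1 := by rw [e1, e2]; ring

/-- Data with `c2 = a H²` and `c3 = b H³` over `ℚ[H]`. -/
theorem exists_cy (d : ℕ) (a b : ℚ) (hd : 0 < d) (hRR : (d : ℚ) / 6 + a * d / 12 = 7)
    (hDP : 35 * (d : ℚ) - 7 * (a * d) - b * d = d ^ 2) (ha : 0 < a) :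
    ∃ V : CY (Polynomial ℚ), V.d = d ∧ V.deg V.c3 = b * d := by
  obtain ⟨p, q, hp, hq⟩ := exists_chern (Polynomial.X : Polynomial ℚ)
    (Polynomial.C a * Polynomial.X ^ 2) (Polynomial.C b * Polynomial.X ^ 3)
  have hd' : (0 : ℚ) < d := by exact_mod_cast hd
  have e1 : ∀ c : ℚ, (Polynomial.C c * (Polynomial.X : Polynomial ℚ) ^ 3).coeff 3 = c := by
    intro c; simp
  have e0 : ((Polynomial.X : Polynomial ℚ) ^ 3).coeff 3 = 1 := by simp
  have e2 : (Polynomial.X : Polynomial ℚ) * (Polynomial.C a * Polynomial.X ^ 2) =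
      Polynomial.C a * Polynomial.X ^ 3 := by ring
  let D : Polynomial ℚ →ₗ[ℚ] ℚ := (d : ℚ) • Polynomial.lcoeff ℚ 3
  have hD : ∀ f : Polynomial ℚ, D f = d * f.coeff 3 := fun f => rfl
  refine ⟨{ deg := D, H := Polynomial.X, c2 := Polynomial.C a * Polynomial.X ^ 2,
            c3 := Polynomial.C b * Polynomial.X ^ 3, d := d, hd := ?_, hpos := hd, chern := p,
            segre := q, whitney := hp, segre_mul := hq, riemannRoch := ?_, doublePoint := ?_,
            miyaoka := ?_, flat := ?_ }, rfl, ?_⟩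
  · rw [hD, e0, mul_one]
  · rw [hD, hD, e0, e2, e1]; linear_combination hRR
  · rw [whitney_three hp, e2, hD]
    have e3 : (35 * (Polynomial.X : Polynomial ℚ) ^ 3 - 7 * (Polynomial.C a * Polynomial.X ^ 3) -
        Polynomial.C b * Polynomial.X ^ 3) = Polynomial.C (35 - 7 * a - b) * Polynomial.X ^ 3 := by
      simp only [map_sub, map_mul, map_ofNat]
      ring
    rw [e3, e1]
    linear_combination hDP
  · rw [hD, e2, e1]; positivity
  · intro h
    rw [hD, e2, e1] at h
    exact absurd h (by positivity)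
  · show D _ = _
    rw [hD, e1]; ring

/-- The blow-up data exist for all data `V`. -/
theorem exists_blowUp {A : Type} [CommRing A] [Algebra ℚ A] (V : CY A) :
    ∃ W : BlowUp V (Polynomial (Polynomial ℚ)), W.h = Polynomial.C Polynomial.X ∧
      W.e = Polynomial.X := by
  let v : ℕ → ℚ := fun j => if j = 0 then 1 else if j ≤ 2 then 0 else
    (-1) ^ (j - 1) * V.deg (V.H ^ (6 - j) * coeff (j - 3) V.segre)
  let I : Polynomial (Polynomial ℚ) →ₗ[ℚ] ℚ :=
    { toFun := fun f => ∑ j ∈ Finset.range 7, v j * (f.coeff j).coeff (6 - j)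
      map_add' := fun f g => by
        rw [← Finset.sum_add_distrib]
        refine Finset.sum_congr rfl fun j _ => ?_
        rw [Polynomial.coeff_add, Polynomial.coeff_add, mul_add]
      map_smul' := fun c f => by
        rw [RingHom.id_apply, smul_eq_mul, Finset.mul_sum]
        refine Finset.sum_congr rfl fun j _ => ?_
        rw [Polynomial.coeff_smul, Polynomial.coeff_smul, smul_eq_mul]
        ring }
  have hI : ∀ j ≤ 6, I ((Polynomial.C Polynomial.X : Polynomial (Polynomial ℚ)) ^ (6 - j) *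
      Polynomial.X ^ j) = v j := by
    intro j hj
    show ∑ i ∈ Finset.range 7, v i * (((Polynomial.C Polynomial.X : Polynomial (Polynomial ℚ)) ^
      (6 - j) * Polynomial.X ^ j).coeff i).coeff (6 - i) = v j
    rw [Finset.sum_eq_single j]
    · rw [← map_pow, Polynomial.coeff_C_mul_X_pow, if_pos rfl, Polynomial.coeff_X_pow, if_pos rfl,
        mul_one]
    · intro i _ hij
      rw [← map_pow, Polynomial.coeff_C_mul_X_pow, if_neg hij, Polynomial.coeff_zero, mul_zero]
    · intro h
      exact absurd (Finset.mem_range.2 (by omega)) h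
  refine ⟨{ int := I, h := Polynomial.C Polynomial.X, e := Polynomial.X, top := ?_, low := ?_,
            high := ?_ }, rfl, rfl⟩
  · have h := hI 0 (by norm_num)
    simpa [v] using h
  · intro j h1 h2
    rw [hI j (by omega)]
    simp only [v]
    rw [if_neg (by omega), if_pos h2]
  · intro j h1 h2
    rw [hI j h2]
    simp only [v]
    rw [if_neg (by omega), if_neg (by omega)]

/-- The complete intersection `(2, 2, 3)`: degree `12`, Euler number `-144`. -/
theorem exists_twelve : ∃ V : CY (Polynomial ℚ), V.d = 12 ∧ V.deg V.c3 = -144 := by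
  obtain ⟨V, h1, h2⟩ := exists_cy 12 5 (-12) (by norm_num) (by norm_num) (by norm_num) (by norm_num)
  exact ⟨V, h1, by rw [h2]; norm_num⟩

/-- The Pfaffian threefold: degree `14`, Euler number `-98`. -/
theorem exists_fourteen : ∃ V : CY (Polynomial ℚ), V.d = 14 ∧ V.deg V.c3 = -98 := by
  obtain ⟨V, h1, h2⟩ := exists_cy 14 4 (-7) (by norm_num) (by norm_num) (by norm_num) (by norm_num)
  exact ⟨V, h1, by rw [h2]; norm_num⟩

/-- For the complete intersection `(2, 2, 3)`: `(3 h - e)⁶ = 33`. -/
theorem top_twelve {A : Type} [CommRing A] [Algebra ℚ A] {V : CY A} (hV : V.d = 12) {B : Type}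
    [CommRing B] [Algebra ℚ B] (W : BlowUp V B) : W.int (((3 : B) * W.h - W.e) ^ 6) = 33 := by
  have h := top_self W 3
  rw [hV] at h
  norm_num at h
  exact h

/-- For the Pfaffian threefold of degree `14`: `(3 h - e)⁶ = 1`. -/
theorem top_fourteen {A : Type} [CommRing A] [Algebra ℚ A] {V : CY A} (hV : V.d = 14) {B : Type}
    [CommRing B] [Algebra ℚ B] (W : BlowUp V B) : W.int (((3 : B) * W.h - W.e) ^ 6) = 1 := by
  have h := top_self W 3
  rw [hV] at h
  norm_num at h
  exact h

end Pool.Agent.MP_06671c
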